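import Mathlib

set_option autoImplicit false

namespace Pool.Agent.Results.MP_db841c_co.DoubleVetoNotVeto

/-- A veto interval: the closed interval `[l, r]` carrying the veto mark `v`, with `l < v < r`. -/
structure VetoInterval where
  /-- left endpoint -/
  l : ℝ
  /-- veto mark -/
  v : ℝ
  /-- right endpoint -/
  r : ℝ
  l_lt_v : l < v
  v_lt_r : v < r

/-- A double veto interval: the closed interval `[l, r]` carrying two veto marks `v < w`, with
`l < v < w < r`. -/
structure DoubleVetoInterval where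
  /-- left endpoint -/
  l : ℝ
  /-- first veto mark -/
  v : ℝ
  /-- second veto mark -/
  w : ℝ
  /-- right endpoint -/
  r : ℝ
  l_lt_v : l < v
  v_lt_w : v < w
  w_lt_r : w < r

/-- `G` is a veto interval graph: distinct vertices `a, b` are adjacent exactly when
`a_v < b_l < a_r < b_v` or `b_v < a_l < b_r < a_v`, for some injective assignment of veto
intervals to the vertices. -/
def IsVetoIntervalGraph {V : Type} (G : SimpleGraph V) : Prop :=
  ∃ I : V → VetoInterval, Function.Injective I ∧ ∀ a b : V, a ≠ b →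
    (G.Adj a b ↔
      ((I a).v < (I b).l ∧ (I b).l < (I a).r ∧ (I a).r < (I b).v) ∨
      ((I b).v < (I a).l ∧ (I a).l < (I b).r ∧ (I b).r < (I a).v))

/-- `G` is a double veto interval graph: distinct vertices `a, b` are adjacent exactly when
`a_w < b_l < a_r < b_v` or `b_w < a_l < b_r < a_v`, for some injective assignment of double veto
intervals to the vertices. -/
def IsDoubleVetoIntervalGraph {V : Type} (G : SimpleGraph V) : Prop :=
  ∃ I : V → DoubleVetoInterval, Function.Injective I ∧ ∀ a b : V, a ≠ b →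
    (G.Adj a b ↔
      ((I a).w < (I b).l ∧ (I b).l < (I a).r ∧ (I a).r < (I b).v) ∨
      ((I b).w < (I a).l ∧ (I a).l < (I b).r ∧ (I b).r < (I a).v))

/-! ### There are few veto interval graphs -/

/-- The graph defined by integer positions `f a 0, f a 1, f a 2` of the three points of each
vertex. -/
def graphOf {V : Type} {m : ℕ} (f : V → Fin 3 → Fin m) : SimpleGraph V :=
  SimpleGraph.fromRel (fun a b => f a 1 < f b 0 ∧ f b 0 < f a 2 ∧ f a 2 < f b 1)

/-- The rank of a real number with respect to a finite set. -/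
noncomputable def rank (S : Finset ℝ) (x : ℝ) : ℕ := (S.filter (fun s => s < x)).card

lemma rank_lt_card {S : Finset ℝ} {x : ℝ} (hx : x ∈ S) : rank S x < S.card := by
  unfold rank
  apply Finset.card_lt_card
  rw [Finset.filter_ssubset]
  exact ⟨x, hx, lt_irrefl x⟩

lemma rank_lt_rank_iff {S : Finset ℝ} {x y : ℝ} (hx : x ∈ S) : rank S x < rank S y ↔ x < y := by
  constructor
  · intro h
    by_contra hxy
    rw [not_lt] at hxy
    have : rank S y ≤ rank S x := by
      unfold rank
      apply Finset.card_le_card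
      intro s hs
      rw [Finset.mem_filter] at hs ⊢
      exact ⟨hs.1, lt_of_lt_of_le hs.2 hxy⟩
    omega
  · intro h
    unfold rank
    apply Finset.card_lt_card
    rw [Finset.ssubset_iff_of_subset]
    · refine ⟨x, ?_, ?_⟩
      · rw [Finset.mem_filter]; exact ⟨hx, h⟩
      · rw [Finset.mem_filter]; intro h2; exact lt_irrefl x h2.2
    · intro s hs
      rw [Finset.mem_filter] at hs ⊢
      exact ⟨hs.1, lt_trans hs.2 h⟩

/-- The three points of a veto interval. -/
def pt (I : VetoInterval) (i : Fin 3) : ℝ := ![I.l, I.v, I.r] i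

lemma exists_graphOf {V : Type} [Fintype V] {G : SimpleGraph V} (h : IsVetoIntervalGraph G) :
    ∃ f : V → Fin 3 → Fin (3 * Fintype.card V), G = graphOf f := by
  classical
  obtain ⟨I, _, hI⟩ := h
  set S : Finset ℝ := Finset.univ.image (fun p : V × Fin 3 => pt (I p.1) p.2) with hS
  have hmem : ∀ a i, pt (I a) i ∈ S := by
    intro a i
    rw [hS, Finset.mem_image]
    exact ⟨(a, i), Finset.mem_univ _, rfl⟩
  have hcard : S.card ≤ 3 * Fintype.card V := by
    calc S.card ≤ (Finset.univ : Finset (V × Fin 3)).card := Finset.card_image_le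
      _ = 3 * Fintype.card V := by
        rw [Finset.card_univ, Fintype.card_prod, Fintype.card_fin, mul_comm]
  refine ⟨fun a i => ⟨rank S (pt (I a) i), (rank_lt_card (hmem a i)).trans_le hcard⟩, ?_⟩
  have hlt : ∀ a i b j, rank S (pt (I a) i) < rank S (pt (I b) j) ↔ pt (I a) i < pt (I b) j :=
    fun a i b j => rank_lt_rank_iff (hmem a i)
  ext a b
  rw [graphOf, SimpleGraph.fromRel_adj]
  simp only [Fin.mk_lt_mk, hlt]
  constructor
  · intro hab
    exact ⟨hab.ne, (hI a b hab.ne).1 hab⟩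
  · rintro ⟨hne, hab⟩
    exact (hI a b hne).2 hab

/-! ### There are many double veto interval graphs -/

/-- Vertex set: a frame of `4 * K` vertices and `N` free vertices. -/
abbrev Vert (K N : ℕ) : Type := (Fin 4 × Fin K) ⊕ Fin N

/-- The double veto intervals: four kinds of frame intervals, and one free interval for each
`i : Fin N`, whose four coordinates are controlled by `t i`. -/
noncomputable def ivl (K N : ℕ) (t : Fin N → Fin 4 → Fin (K + 1)) :
    Vert K N → DoubleVetoInterval
  | Sum.inl (0, j) =>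
    { l := (j : ℝ) - 1, v := (j : ℝ), w := (j : ℝ) + 1, r := K + 2
      l_lt_v := by linarith
      v_lt_w := by linarith
      w_lt_r := by
        have : (j : ℝ) < K := by exact_mod_cast j.isLt
        linarith }
  | Sum.inl (1, j) =>
    { l := -3, v := -2, w := -1, r := (K + 5) + ((j : ℝ) + 1)
      l_lt_v := by norm_num
      v_lt_w := by norm_num
      w_lt_r := by
        have h1 : (0 : ℝ) ≤ K := by positivity
        have h2 : (0 : ℝ) ≤ j := by positivity
        linarith }
  | Sum.inl (2, j) =>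
    { l := 2 * (K + 5) + ((j : ℝ) + 1), v := 4 * (K + 5), w := 4 * (K + 5) + 1,
      r := 4 * (K + 5) + 2
      l_lt_v := by
        have h1 : (j : ℝ) < K := by exact_mod_cast j.isLt
        have h2 : (0 : ℝ) ≤ j := by positivity
        linarith
      v_lt_w := by linarith
      w_lt_r := by linarith }
  | Sum.inl (3, j) =>
    { l := 2 * (K + 5) + (K + 2), v := 3 * (K + 5) + ((j : ℝ) + 1), w := 4 * (K + 5) + 1,
      r := 4 * (K + 5) + 2
      l_lt_v := by
        have h2 : (0 : ℝ) ≤ j := by positivity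
        linarith
      v_lt_w := by
        have h1 : (j : ℝ) < K := by exact_mod_cast j.isLt
        have h2 : (0 : ℝ) ≤ j := by positivity
        linarith
      w_lt_r := by linarith }
  | Sum.inr i =>
    { l := ((t i 0 : ℕ) : ℝ) + ((i : ℝ) + 1) / ((N : ℝ) + 1)
      v := (K + 5) + (((t i 1 : ℕ) : ℝ) + 1 / 2)
      w := 2 * (K + 5) + (((t i 2 : ℕ) : ℝ) + 1 / 2)
      r := 3 * (K + 5) + (((t i 3 : ℕ) : ℝ) + 1 / 2)
      l_lt_v := by
        have h0 : ((t i 0 : ℕ) : ℝ) ≤ K := by exact_mod_cast Nat.lt_succ_iff.mp (t i 0).isLt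
        have h1 : (0 : ℝ) ≤ ((t i 1 : ℕ) : ℝ) := by positivity
        have h2 : ((i : ℝ) + 1) / ((N : ℝ) + 1) < 1 := by
          rw [div_lt_one (by positivity)]
          have : (i : ℝ) < N := by exact_mod_cast i.isLt
          linarith
        linarith
      v_lt_w := by
        have h0 : ((t i 1 : ℕ) : ℝ) ≤ K := by exact_mod_cast Nat.lt_succ_iff.mp (t i 1).isLt
        have h1 : (0 : ℝ) ≤ ((t i 2 : ℕ) : ℝ) := by positivity
        linarith
      w_lt_r := by
        have h0 : ((t i 2 : ℕ) : ℝ) ≤ K := by exact_mod_cast Nat.lt_succ_iff.mp (t i 2).isLt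
        have h1 : (0 : ℝ) ≤ ((t i 3 : ℕ) : ℝ) := by positivity
        linarith }

/-- The relation `a_w < b_l < a_r < b_v`. -/
def DRel (a b : DoubleVetoInterval) : Prop := a.w < b.l ∧ b.l < a.r ∧ a.r < b.v

/-- The double veto interval graph given by `t`. -/
noncomputable def dgraph (K N : ℕ) (t : Fin N → Fin 4 → Fin (K + 1)) : SimpleGraph (Vert K N) :=
  SimpleGraph.fromRel (fun a b => DRel (ivl K N t a) (ivl K N t b))

lemma ivl_injective (K N : ℕ) (t : Fin N → Fin 4 → Fin (K + 1)) :
    Function.Injective (ivl K N t) := by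
  intro a b hab
  have hl := congrArg DoubleVetoInterval.l hab
  have hv := congrArg DoubleVetoInterval.v hab
  have hw := congrArg DoubleVetoInterval.w hab
  have hr := congrArg DoubleVetoInterval.r hab
  have hK : (0 : ℝ) ≤ K := by positivity
  have hjK : ∀ j : Fin K, (j : ℝ) < K := fun j => by exact_mod_cast j.isLt
  have hj0 : ∀ j : Fin K, (0 : ℝ) ≤ (j : ℝ) := fun j => by positivity
  have htK : ∀ i c, ((t i c : ℕ) : ℝ) ≤ K := fun i c => by
    exact_mod_cast Nat.lt_succ_iff.mp (t i c).isLt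
  have ht0 : ∀ i c, (0 : ℝ) ≤ ((t i c : ℕ) : ℝ) := fun i c => by positivity
  have hd0 : ∀ i : Fin N, 0 < ((i : ℝ) + 1) / ((N : ℝ) + 1) := fun i => by positivity
  have hd1 : ∀ i : Fin N, ((i : ℝ) + 1) / ((N : ℝ) + 1) < 1 := fun i => by
    rw [div_lt_one (by positivity)]
    have : (i : ℝ) < N := by exact_mod_cast i.isLt
    linarith
  rcases a with ⟨c, j⟩ | i <;> rcases b with ⟨c', j'⟩ | i'
  · have hj := hj0 j
    have hj' := hj0 j'
    have hk := hjK j
    have hk' := hjK j'
    fin_cases c <;> fin_cases c' <;> simp only [ivl, Fin.zero_eta, Fin.mk_one, Fin.reduceFinMk]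
      at hl hv hw hr ⊢
    all_goals first
      | (exfalso; linarith)
      | (have hjj : (j : ℝ) = (j' : ℝ) := by linarith
         have hjj2 : j = j' := Fin.ext (by exact_mod_cast hjj)
         rw [hjj2])
  · exfalso
    have hj := hj0 j
    have hk := hjK j
    have h1 := htK i' 0
    have h2 := htK i' 1
    have h3 := htK i' 2
    have h4 := htK i' 3
    have h1' := ht0 i' 0
    have h2' := ht0 i' 1
    have h3' := ht0 i' 2
    have h4' := ht0 i' 3
    have h5 := hd0 i'
    have h6 := hd1 i'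
    fin_cases c <;> simp only [ivl, Fin.zero_eta, Fin.mk_one, Fin.reduceFinMk] at hl hv hw hr <;>
      linarith
  · exfalso
    have hj := hj0 j'
    have hk := hjK j'
    have h1 := htK i 0
    have h2 := htK i 1
    have h3 := htK i 2
    have h4 := htK i 3
    have h1' := ht0 i 0
    have h2' := ht0 i 1
    have h3' := ht0 i 2
    have h4' := ht0 i 3
    have h5 := hd0 i
    have h6 := hd1 i
    fin_cases c' <;> simp only [ivl, Fin.zero_eta, Fin.mk_one, Fin.reduceFinMk] at hl hv hw hr <;>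
      linarith
  · simp only [ivl] at hl
    have h1 := hd0 i
    have h2 := hd1 i
    have h3 := hd0 i'
    have h4 := hd1 i'
    have h5 : ((t i 0 : ℕ) : ℝ) - ((t i' 0 : ℕ) : ℝ) < 1 := by linarith
    have h6 : -1 < ((t i 0 : ℕ) : ℝ) - ((t i' 0 : ℕ) : ℝ) := by linarith
    have h7 : ((t i 0 : ℕ) : ℤ) - ((t i' 0 : ℕ) : ℤ) < 1 := by exact_mod_cast h5
    have h8 : -1 < ((t i 0 : ℕ) : ℤ) - ((t i' 0 : ℕ) : ℤ) := by exact_mod_cast h6
    have h9 : ((t i 0 : ℕ) : ℝ) = ((t i' 0 : ℕ) : ℝ) := by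
      have : (t i 0 : ℕ) = (t i' 0 : ℕ) := by omega
      exact_mod_cast this
    have h10 : ((i : ℝ) + 1) / ((N : ℝ) + 1) = ((i' : ℝ) + 1) / ((N : ℝ) + 1) := by linarith
    have hN : ((N : ℝ) + 1) ≠ 0 := by positivity
    rw [div_left_inj' hN] at h10
    have h11 : (i : ℝ) = (i' : ℝ) := by linarith
    have h12 : i = i' := Fin.ext (by exact_mod_cast h11)
    rw [h12]

/-- Frame vertices of kind 0 detect coordinate 0. -/
lemma adj_zero (K N : ℕ) (t : Fin N → Fin 4 → Fin (K + 1)) (i : Fin N) (j : Fin K) :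
    (dgraph K N t).Adj (Sum.inr i) (Sum.inl (0, j)) ↔ j.val < (t i 0).val := by
  have hK : (0 : ℝ) ≤ K := by positivity
  have hj0 : (0 : ℝ) ≤ (j : ℝ) := by positivity
  have hjK : (j : ℝ) < K := by exact_mod_cast j.isLt
  have h1 : ((t i 0 : ℕ) : ℝ) ≤ K := by exact_mod_cast Nat.lt_succ_iff.mp (t i 0).isLt
  have h2 : (0 : ℝ) ≤ ((t i 1 : ℕ) : ℝ) := by positivity
  have h3 : (0 : ℝ) ≤ ((t i 2 : ℕ) : ℝ) := by positivity
  have hd0 : 0 < ((i : ℝ) + 1) / ((N : ℝ) + 1) := by positivity
  have hd1 : ((i : ℝ) + 1) / ((N : ℝ) + 1) < 1 := by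
    rw [div_lt_one (by positivity)]
    have : (i : ℝ) < N := by exact_mod_cast i.isLt
    linarith
  rw [dgraph, SimpleGraph.fromRel_adj]
  simp only [ne_eq, reduceCtorEq, not_false_eq_true, true_and, DRel, ivl]
  constructor
  · rintro (⟨ha, hb, hc⟩ | ⟨ha, hb, hc⟩)
    · exfalso; linarith
    · have h4 : (j : ℝ) < ((t i 0 : ℕ) : ℝ) := by linarith
      exact_mod_cast h4
  · intro h
    right
    have h4 : (j : ℝ) + 1 ≤ ((t i 0 : ℕ) : ℝ) := by exact_mod_cast h
    refine ⟨by linarith, by linarith, by linarith⟩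

/-- Frame vertices of kind 1 detect coordinate 1. -/
lemma adj_one (K N : ℕ) (t : Fin N → Fin 4 → Fin (K + 1)) (i : Fin N) (j : Fin K) :
    (dgraph K N t).Adj (Sum.inr i) (Sum.inl (1, j)) ↔ j.val < (t i 1).val := by
  have hK : (0 : ℝ) ≤ K := by positivity
  have hj0 : (0 : ℝ) ≤ (j : ℝ) := by positivity
  have hjK : (j : ℝ) < K := by exact_mod_cast j.isLt
  have h1 : ((t i 0 : ℕ) : ℝ) ≤ K := by exact_mod_cast Nat.lt_succ_iff.mp (t i 0).isLt
  have h1' : (0 : ℝ) ≤ ((t i 0 : ℕ) : ℝ) := by positivity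
  have h3 : (0 : ℝ) ≤ ((t i 2 : ℕ) : ℝ) := by positivity
  have hd0 : 0 < ((i : ℝ) + 1) / ((N : ℝ) + 1) := by positivity
  have hd1 : ((i : ℝ) + 1) / ((N : ℝ) + 1) < 1 := by
    rw [div_lt_one (by positivity)]
    have : (i : ℝ) < N := by exact_mod_cast i.isLt
    linarith
  rw [dgraph, SimpleGraph.fromRel_adj]
  simp only [ne_eq, reduceCtorEq, not_false_eq_true, true_and, DRel, ivl]
  constructor
  · rintro (⟨ha, hb, hc⟩ | ⟨ha, hb, hc⟩)
    · exfalso; linarith
    · have h4 : (j : ℝ) < ((t i 1 : ℕ) : ℝ) := by linarith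
      exact_mod_cast h4
  · intro h
    right
    have h4 : (j : ℝ) + 1 ≤ ((t i 1 : ℕ) : ℝ) := by exact_mod_cast h
    refine ⟨by linarith, by linarith, by linarith⟩

/-- Frame vertices of kind 2 detect coordinate 2. -/
lemma adj_two (K N : ℕ) (t : Fin N → Fin 4 → Fin (K + 1)) (i : Fin N) (j : Fin K) :
    (dgraph K N t).Adj (Sum.inr i) (Sum.inl (2, j)) ↔ (t i 2).val ≤ j.val := by
  have hK : (0 : ℝ) ≤ K := by positivity
  have hj0 : (0 : ℝ) ≤ (j : ℝ) := by positivity
  have hjK : (j : ℝ) < K := by exact_mod_cast j.isLt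
  have h1 : ((t i 0 : ℕ) : ℝ) ≤ K := by exact_mod_cast Nat.lt_succ_iff.mp (t i 0).isLt
  have h1' : (0 : ℝ) ≤ ((t i 0 : ℕ) : ℝ) := by positivity
  have h3 : (0 : ℝ) ≤ ((t i 3 : ℕ) : ℝ) := by positivity
  have h3' : ((t i 3 : ℕ) : ℝ) ≤ K := by exact_mod_cast Nat.lt_succ_iff.mp (t i 3).isLt
  have hd0 : 0 < ((i : ℝ) + 1) / ((N : ℝ) + 1) := by positivity
  have hd1 : ((i : ℝ) + 1) / ((N : ℝ) + 1) < 1 := by
    rw [div_lt_one (by positivity)]
    have : (i : ℝ) < N := by exact_mod_cast i.isLt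
    linarith
  rw [dgraph, SimpleGraph.fromRel_adj]
  simp only [ne_eq, reduceCtorEq, not_false_eq_true, true_and, DRel, ivl]
  constructor
  · rintro (⟨ha, hb, hc⟩ | ⟨ha, hb, hc⟩)
    · have h4 : ((t i 2 : ℕ) : ℝ) < (j : ℝ) + 1 := by linarith
      have h5 : (t i 2).val < j.val + 1 := by exact_mod_cast h4
      omega
    · exfalso; linarith
  · intro h
    left
    have h4 : ((t i 2 : ℕ) : ℝ) ≤ (j : ℝ) := by exact_mod_cast h
    refine ⟨by linarith, by linarith, by linarith⟩

/-- Frame vertices of kind 3 detect coordinate 3. -/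
lemma adj_three (K N : ℕ) (t : Fin N → Fin 4 → Fin (K + 1)) (i : Fin N) (j : Fin K) :
    (dgraph K N t).Adj (Sum.inr i) (Sum.inl (3, j)) ↔ (t i 3).val ≤ j.val := by
  have hK : (0 : ℝ) ≤ K := by positivity
  have hj0 : (0 : ℝ) ≤ (j : ℝ) := by positivity
  have hjK : (j : ℝ) < K := by exact_mod_cast j.isLt
  have h1 : ((t i 0 : ℕ) : ℝ) ≤ K := by exact_mod_cast Nat.lt_succ_iff.mp (t i 0).isLt
  have h1' : (0 : ℝ) ≤ ((t i 0 : ℕ) : ℝ) := by positivity
  have h2 : ((t i 2 : ℕ) : ℝ) ≤ K := by exact_mod_cast Nat.lt_succ_iff.mp (t i 2).isLt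
  have h3 : (0 : ℝ) ≤ ((t i 3 : ℕ) : ℝ) := by positivity
  have hd0 : 0 < ((i : ℝ) + 1) / ((N : ℝ) + 1) := by positivity
  have hd1 : ((i : ℝ) + 1) / ((N : ℝ) + 1) < 1 := by
    rw [div_lt_one (by positivity)]
    have : (i : ℝ) < N := by exact_mod_cast i.isLt
    linarith
  rw [dgraph, SimpleGraph.fromRel_adj]
  simp only [ne_eq, reduceCtorEq, not_false_eq_true, true_and, DRel, ivl]
  constructor
  · rintro (⟨ha, hb, hc⟩ | ⟨ha, hb, hc⟩)
    · have h4 : ((t i 3 : ℕ) : ℝ) < (j : ℝ) + 1 := by linarith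
      have h5 : (t i 3).val < j.val + 1 := by exact_mod_cast h4
      omega
    · exfalso; linarith
  · intro h
    left
    have h4 : ((t i 3 : ℕ) : ℝ) ≤ (j : ℝ) := by exact_mod_cast h
    refine ⟨by linarith, by linarith, by linarith⟩

/-- A threshold in `{0, …, K}` is determined by the comparisons with `0, …, K-1`. -/
lemma fin_eq_of_lt_iff {K : ℕ} {x y : Fin (K + 1)}
    (h : ∀ j : Fin K, j.val < x.val ↔ j.val < y.val) : x = y := by
  apply Fin.ext
  by_contra hne
  rcases Nat.lt_or_gt_of_ne hne with h1 | h1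
  · have := (h ⟨x.val, by omega⟩).2 h1
    simp at this
  · have := (h ⟨y.val, by omega⟩).1 h1
    simp at this

lemma dgraph_injective (K N : ℕ) : Function.Injective (dgraph K N) := by
  intro t t' h
  have hadj : ∀ a b, (dgraph K N t).Adj a b ↔ (dgraph K N t').Adj a b := by
    intro a b; rw [h]
  funext i c
  fin_cases c
  · apply fin_eq_of_lt_iff
    intro j
    have := hadj (Sum.inr i) (Sum.inl (0, j))
    rwa [adj_zero, adj_zero] at this
  · apply fin_eq_of_lt_iff
    intro j
    have := hadj (Sum.inr i) (Sum.inl (1, j))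
    rwa [adj_one, adj_one] at this
  · apply fin_eq_of_lt_iff
    intro j
    have := hadj (Sum.inr i) (Sum.inl (2, j))
    rw [adj_two, adj_two] at this
    change j.val < (t i 2).val ↔ j.val < (t' i 2).val
    omega
  · apply fin_eq_of_lt_iff
    intro j
    have := hadj (Sum.inr i) (Sum.inl (3, j))
    rw [adj_three, adj_three] at this
    change j.val < (t i 3).val ↔ j.val < (t' i 3).val
    omega

lemma dgraph_isDVI (K N : ℕ) (t : Fin N → Fin 4 → Fin (K + 1)) :
    IsDoubleVetoIntervalGraph (dgraph K N t) := by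
  refine ⟨ivl K N t, ivl_injective K N t, ?_⟩
  intro a b hab
  rw [dgraph, SimpleGraph.fromRel_adj]
  simp only [DRel]
  constructor
  · rintro ⟨_, h⟩; exact h
  · intro h; exact ⟨hab, h⟩

/-- Counting: some double veto interval graph is not a veto interval graph, whenever
`(3n)^(3n) < (K+1)^(4N)`, where `n = 4K + N`. -/
lemma exists_of_card_lt (K N : ℕ)
    (h : (3 * (4 * K + N)) ^ (3 * (4 * K + N)) < (K + 1) ^ (4 * N)) :
    ∃ t, ¬ IsVetoIntervalGraph (dgraph K N t) := by
  classical
  by_contra hcon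
  push Not at hcon
  choose F hF using fun t => exists_graphOf (hcon t)
  have hinj : Function.Injective F := by
    intro t t' htt
    apply dgraph_injective K N
    rw [hF t, hF t', htt]
  have hle := Fintype.card_le_of_injective F hinj
  have hV : Fintype.card (Vert K N) = 4 * K + N := by
    simp [Vert, Fintype.card_sum, Fintype.card_prod, Fintype.card_fin]
  simp only [Fintype.card_pi, Finset.prod_const, Finset.card_univ, Fintype.card_fin, hV] at hle
  rw [← pow_mul, ← pow_mul] at hle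
  omega

/-- Both properties only depend on the isomorphism class. -/
lemma transfer {V W : Type} (e : W ≃ V) (G : SimpleGraph V) :
    (IsDoubleVetoIntervalGraph G → IsDoubleVetoIntervalGraph (G.comap e)) ∧
    (IsVetoIntervalGraph (G.comap e) → IsVetoIntervalGraph G) := by
  constructor
  · rintro ⟨I, hI, hadj⟩
    refine ⟨fun w => I (e w), hI.comp e.injective, ?_⟩
    intro a b hab
    rw [SimpleGraph.comap_adj]
    exact hadj (e a) (e b) (fun h => hab (e.injective h))
  · rintro ⟨I, hI, hadj⟩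
    refine ⟨fun v => I (e.symm v), hI.comp e.symm.injective, ?_⟩
    intro a b hab
    have := hadj (e.symm a) (e.symm b) (fun h => hab (e.symm.injective h))
    rw [SimpleGraph.comap_adj] at this
    simpa using this

/-- **Answer to Q1 (yes).** There is a double veto interval graph that is not a veto interval
graph. -/
theorem result : ∃ (n : ℕ) (G : SimpleGraph (Fin n)),
    IsDoubleVetoIntervalGraph G ∧ ¬ IsVetoIntervalGraph G := by
  obtain ⟨K, hK⟩ : ∃ K : ℕ, K = 84 ^ 7 := ⟨_, rfl⟩
  have hKpos : 0 < K := by rw [hK]; positivity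
  have h84 : 84 * K = 84 ^ 8 := by rw [hK, ← pow_succ']
  have hlt : (3 * (4 * K + 24 * K)) ^ (3 * (4 * K + 24 * K)) < (K + 1) ^ (4 * (24 * K)) := by
    have e1 : 3 * (4 * K + 24 * K) = 84 * K := by ring
    rw [e1]
    calc (84 * K) ^ (84 * K) = (84 ^ 8) ^ (84 * K) := by rw [← h84]
      _ = 84 ^ (8 * (84 * K)) := by rw [← pow_mul]
      _ = 84 ^ (7 * (4 * (24 * K))) := by congr 1; ring
      _ = (84 ^ 7) ^ (4 * (24 * K)) := by rw [← pow_mul]
      _ = K ^ (4 * (24 * K)) := by rw [← hK]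
      _ < (K + 1) ^ (4 * (24 * K)) := Nat.pow_lt_pow_left (Nat.lt_succ_self K) (by omega)
  obtain ⟨t, ht⟩ := exists_of_card_lt K (24 * K) hlt
  obtain ⟨tr1, tr2⟩ := transfer (Fintype.equivFin (Vert K (24 * K))).symm (dgraph K (24 * K) t)
  exact ⟨_, _, tr1 (dgraph_isDVI K (24 * K) t), fun h => ht (tr2 h)⟩

end Pool.Agent.Results.MP_db841c_co.DoubleVetoNotVeto
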